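import Pool.Agent.RX.RCRSHalf.Dual

/-! The logarithmic identity for the probability that two vertices are free (MP_73ccd0_lc,
exact 1/2, general graphs). -/

namespace Pool.Agent.RX.RCRSGen

open Set Finset Pool.Agent.RX.RCRSHalf

set_option linter.unusedSectionVars false

variable {V : Type*} [Fintype V] [DecidableEq V]

/-- flux identity in collected form -/
theorem deriv_pr_coll {h : ℝ → V → V → ℝ} (hs : ∀ t a b, h t a b = h t b a) {U : Finset V}
    {T : ℝ} {μ : ℝ → Finset V → ℝ} (hμ : IsLaw h U T μ) (W : Finset V) {t : ℝ}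
    (ht : t ∈ Icc 0 T) :
    HasDerivAt (fun t => pr (μ t) W)
      (-((1 / 2) * (∑ a ∈ W, ∑ b ∈ W, h t a b) * pr (μ t) W +
        ∑ z ∈ Finset.univ \ W, (∑ w ∈ W, h t w z) * pr (μ t) (insert z W))) t := by
  refine (hμ.deriv_pr W ht).congr_deriv ?_
  congr 1
  have hW : W ⊆ Finset.univ := Finset.subset_univ W
  have e1 : ∀ a ∈ W, ∑ b, (if a ∈ W ∨ b ∈ W then
      h t a b * pr (μ t) (insert a (insert b W)) else 0)
      = ∑ b ∈ Finset.univ \ W, h t a b * pr (μ t) (insert b W)
        + (∑ b ∈ W, h t a b) * pr (μ t) W := by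
    intro a ha
    rw [← Finset.sum_sdiff hW, Finset.sum_mul]
    congr 1
    · refine Finset.sum_congr rfl fun b hb => ?_
      rw [if_pos (Or.inl ha), Finset.insert_eq_of_mem (Finset.mem_insert_of_mem ha)]
    · refine Finset.sum_congr rfl fun b hb => ?_
      rw [if_pos (Or.inl ha), Finset.insert_eq_of_mem (Finset.mem_insert_of_mem ha),
        Finset.insert_eq_of_mem hb]
  have e2 : ∀ a ∈ Finset.univ \ W, ∑ b, (if a ∈ W ∨ b ∈ W then
      h t a b * pr (μ t) (insert a (insert b W)) else 0)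
      = (∑ b ∈ W, h t b a) * pr (μ t) (insert a W) := by
    intro a ha
    have haW : a ∉ W := (Finset.mem_sdiff.1 ha).2
    rw [← Finset.sum_sdiff hW, Finset.sum_mul]
    have : ∑ b ∈ Finset.univ \ W, (if a ∈ W ∨ b ∈ W then
        h t a b * pr (μ t) (insert a (insert b W)) else 0) = 0 := by
      refine Finset.sum_eq_zero fun b hb => ?_
      have hbW : b ∉ W := (Finset.mem_sdiff.1 hb).2
      rw [if_neg (by tauto)]
    rw [this, zero_add]
    refine Finset.sum_congr rfl fun b hb => ?_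
    rw [if_pos (Or.inr hb), Finset.insert_eq_of_mem hb, hs t a b]
  rw [← Finset.sum_sdiff hW, Finset.sum_congr rfl e1, Finset.sum_congr rfl e2,
    Finset.sum_add_distrib, ← Finset.sum_mul, Finset.sum_comm (s := W)]
  have e3 : ∀ z ∈ Finset.univ \ W, ∑ a ∈ W, h t a z * pr (μ t) (insert z W)
      = (∑ a ∈ W, h t a z) * pr (μ t) (insert z W) := fun z _ => by rw [Finset.sum_mul]
  rw [Finset.sum_congr rfl e3]
  ring

end Pool.Agent.RX.RCRSGen
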